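import Mathlib
import Pool.Agent.Lib.MP_af06f6_co.Defs

/-!
# MP_af06f6_co, lower bound: basic definitions (geometry and corner functions)
-/

open Set Metric

namespace Pool.Agent.Lib.MP_af06f6_co

/-! ## Corner functions -/

/-- theta(x,z) = arctan(z/x) -/
noncomputable def th (x z : ℝ) : ℝ := Real.arctan (z / x)
/-- omega(x,z) = arctan(xz) -/
noncomputable def om (x z : ℝ) : ℝ := Real.arctan (x * z)
/-- phi = pi/2 - theta + omega (half of the angle of the corner seen from the centre of the incircle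
of the face; in other words pi - 2 phi is the interior angle of the face) -/
noncomputable def ph (x z : ℝ) : ℝ := Real.pi / 2 - th x z + om x z
/-- psi = theta + omega (dual of phi) -/
noncomputable def ps (x z : ℝ) : ℝ := th x z + om x z
/-- tan of the double angle -/
noncomputable def tt (x : ℝ) : ℝ := 2 * x / (1 - x ^ 2)

/-- tan(rho/2) where 1/cos rho = ‖v‖ -/
noncomputable def hx (v : E3) : ℝ := √((‖v‖ - 1) / (‖v‖ + 1))

/-- tan rho where 1/cos rho = ‖v‖ -/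
noncomputable def tl (v : E3) : ℝ := √(‖v‖ ^ 2 - 1)

/-! ## Dual pairs -/

/-- `(V, F)` are the vertex sets of a polytope `P = conv V` and of its polar `conv F`. -/
structure DP (V F : Finset E3) : Prop where
  polV : ∀ x : E3, x ∈ convexHull ℝ (V : Set E3) ↔ ∀ f ∈ F, inner ℝ x f ≤ (1 : ℝ)
  polF : ∀ y : E3, y ∈ convexHull ℝ (F : Set E3) ↔ ∀ v ∈ V, inner ℝ v y ≤ (1 : ℝ)
  extV : ∀ v ∈ V, v ∈ extremePoints ℝ (convexHull ℝ (V : Set E3))
  extF : ∀ f ∈ F, f ∈ extremePoints ℝ (convexHull ℝ (F : Set E3))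
  neV : V.Nonempty
  neF : F.Nonempty

/-- incidence -/
def Inc (v f : E3) : Prop := inner ℝ v f = (1 : ℝ)

/-- `v, w` are the two vertices of the edge and `f, g` its two faces. -/
structure E4 (V F : Finset E3) (v w f g : E3) : Prop where
  hv : v ∈ V
  hw : w ∈ V
  hf : f ∈ F
  hg : g ∈ F
  hvw : v ≠ w
  hfg : f ≠ g
  vf : inner ℝ v f = (1 : ℝ)
  vg : inner ℝ v g = (1 : ℝ)
  wf : inner ℝ w f = (1 : ℝ)
  wg : inner ℝ w g = (1 : ℝ)

/-- adjacency of two elements of `A` (two faces of `A = F`, with `B = V`; or vertices of `A = V`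
with `B = F`): distinct, with two common incident elements of `B` -/
def Adj (A B : Finset E3) (f g : E3) : Prop :=
  f ∈ A ∧ g ∈ A ∧ f ≠ g ∧ ∃ v ∈ B, ∃ w ∈ B, v ≠ w ∧
    inner ℝ v f = (1 : ℝ) ∧ inner ℝ v g = (1 : ℝ) ∧ inner ℝ w f = (1 : ℝ) ∧ inner ℝ w g = (1 : ℝ)

open Classical in
/-- the elements of `A` incident with `f` -/
noncomputable def star (A : Finset E3) (f : E3) : Finset E3 := A.filter (fun v => inner ℝ v f = (1 : ℝ))

/-- 'half tangent': every edge of `conv V` has its touching point in its open segment -/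
def HT (V F : Finset E3) : Prop :=
  ∀ v w f g : E3, E4 V F v w f g →
    ∃ u ∈ openSegment ℝ v w, ‖u‖ = 1 ∧ inner ℝ u v = (1 : ℝ) ∧ inner ℝ u w = (1 : ℝ)

/-- A midscribed dual pair. Symmetric under `V ↔ F`. -/
structure Mid (V F : Finset E3) : Prop extends DP V F where
  one_lt_V : ∀ v ∈ V, 1 < ‖v‖
  one_lt_F : ∀ f ∈ F, 1 < ‖f‖
  inner_V : ∀ v ∈ V, ∀ w ∈ V, v ≠ w → inner ℝ v w ≤ 1 - tl v * tl w
  inner_F : ∀ f ∈ F, ∀ g ∈ F, f ≠ g → inner ℝ f g ≤ 1 - tl f * tl g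
  adj_V : ∀ v w, Adj V F v w → inner ℝ v w = 1 - tl v * tl w
  adj_F : ∀ f g, Adj F V f g → inner ℝ f g = 1 - tl f * tl g
  touch : ∀ v w f g, E4 V F v w f g → ∃ u ∈ openSegment ℝ v w, u ∈ openSegment ℝ f g ∧ ‖u‖ = 1 ∧
    inner ℝ u v = (1 : ℝ) ∧ inner ℝ u w = (1 : ℝ) ∧ inner ℝ u f = (1 : ℝ) ∧ inner ℝ u g = (1 : ℝ)

end Pool.Agent.Lib.MP_af06f6_co
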