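import Mathlib
import Pool.Agent.Lib.MP_af06f6_co.G.Defs

/-!
# MP_af06f6_co, lower bound: geometry part, statements of the pieces (each with its proof in the
docstring). The pieces are proved as `theorem X : Stm_X`, taking earlier statements as hypotheses.
-/

open Set Metric

namespace Pool.Agent.Lib.MP_af06f6_co

/-! ## Part A: generic polytope combinatorics of a dual pair -/

/-- A1 (face lemma). If a linear functional is `≤ c` on `V` and `= c` at a point `x` of `conv V`,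
then `x` is in the convex hull of the `v ∈ V` where it equals `c`.
Proof: write `x = ∑ λ_v v` (`Finset.mem_convexHull`...), `∑ λ_v (c - ⟪v,a⟫) = 0`, all terms `≥ 0`, so
`λ_v = 0` unless `⟪v,a⟫ = c`. -/
def Stm_A1 : Prop := ∀ (V : Finset E3) (a : E3) (c : ℝ) (x : E3),
  x ∈ convexHull ℝ (V : Set E3) → (∀ v ∈ V, inner ℝ v a ≤ c) → inner ℝ x a = c →
  x ∈ convexHull ℝ {v : E3 | v ∈ V ∧ inner ℝ v a = c}

/-- A2 (spanning). In a dual pair, for `v ∈ V` and `d ≠ 0` there is `f ∈ F` with `⟪v,f⟫ = 1` and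
`⟪d,f⟫ ≠ 0`. (Same for `F` by `DP.swap`.)
Proof: otherwise `⟪v ± εd, f⟫ ≤ 1` for all `f ∈ F` if `ε > 0` is small (finitely many `f` with
`⟪v,f⟫ < 1`), so `v ± εd ∈ conv V` by `polV`, and `v` is in the open segment of the two: contradiction
with `extV`. -/
def Stm_A2 : Prop := ∀ V F : Finset E3, DP V F → ∀ v ∈ V, ∀ d : E3, d ≠ 0 →
  ∃ f ∈ F, inner ℝ v f = (1 : ℝ) ∧ inner ℝ d f ≠ (0 : ℝ)

/-- A3 (no three common). Three distinct elements of `V` cannot lie on two distinct elements of `F`.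
Proof: `f ≠ g` with `⟪v,f⟫ = ⟪v,g⟫ = 1` are linearly independent, so the set
`{x | ⟪x,f⟫ = ⟪x,g⟫ = 1}` is a line; of three distinct points on a line one is in the open segment of
the other two, contradicting extremality. -/
def Stm_A3 : Prop := ∀ V F : Finset E3, DP V F → ∀ f ∈ F, ∀ g ∈ F, f ≠ g → ∀ u ∈ V, ∀ v ∈ V, ∀ w ∈ V,
  u ≠ v → v ≠ w → u ≠ w → inner ℝ u f = (1 : ℝ) → inner ℝ u g = (1 : ℝ) → inner ℝ v f = (1 : ℝ) →
  inner ℝ v g = (1 : ℝ) → inner ℝ w f = (1 : ℝ) → inner ℝ w g = (1 : ℝ) → False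

/-- A4 (degrees). At least three elements of `F` are incident with `v ∈ V`.
Proof: if at most two, there is `d ≠ 0` orthogonal to all of them, contradiction with A2. -/
def Stm_A4 : Prop := ∀ V F : Finset E3, DP V F → ∀ v ∈ V, 3 ≤ (star F v).card

/-- The two edges of the face `f` at its vertex `v`, with the two neighbouring faces. -/
structure Flag2 (V F : Finset E3) (v f w₁ w₂ g₁ g₂ : E3) : Prop where
  e₁ : E4 V F v w₁ f g₁
  e₂ : E4 V F v w₂ f g₂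
  hw : w₁ ≠ w₂
  hg : g₁ ≠ g₂
  lt₁ : inner ℝ w₁ g₂ < (1 : ℝ)
  lt₂ : inner ℝ w₂ g₁ < (1 : ℝ)
  /-- every edge of `f` at `v` is one of the two -/
  only : ∀ w g, E4 V F v w f g → (w = w₁ ∧ g = g₁) ∨ (w = w₂ ∧ g = g₂)
  /-- planar cone: a point of the plane of `f` satisfying the inequalities of `g₁`, `g₂` is in the
  cone at `v` generated by the two edges -/
  cone : ∀ x : E3, inner ℝ x f = (1 : ℝ) → inner ℝ x g₁ ≤ (1 : ℝ) → inner ℝ x g₂ ≤ (1 : ℝ) →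
    ∃ a b : ℝ, 0 ≤ a ∧ 0 ≤ b ∧ x - v = a • (w₁ - v) + b • (w₂ - v)

/-- A5 (two-dimensional cone lemma). Every flag `(v, f)` has exactly two edges.
Proof. Let `D = {w - v : w ∈ V_f, w ≠ v}` (`V_f` = elements of `V` incident with `f`); all these
vectors are in the plane `f^⊥`; `D` contains two linearly independent vectors (A2 for `F`:
`V_f` spans). Put `ℓ = -∑_{g ∈ F_v} g`: `⟪ℓ,d⟫ > 0` for `d ∈ D` (all terms `⟪d,g⟫ ≤ 0`, not all `0` by A2).
Choose `p ∈ f^⊥` nonzero... with `ℓ', p` a basis of the dual of the plane (`ℓ'` = projection of `ℓ` to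
`f^⊥`, `p ∈ f^⊥`, `p ⊥ ℓ'`). The slope `s(d) = ⟪p,d⟫/⟪ℓ,d⟫` is injective on `D`: equal slopes means
`d' = c d`, `c > 0`, then `v, v+d, v+d'` are three collinear points of `V`, contradiction. Let `w₁`, `w₂`
realise the minimal and the maximal slope (`w₁ ≠ w₂` as `|D| ≥ 2`). Every `d ∈ D` is a nonnegative
combination of `d₁, d₂`. Existence of `g₁`: if no `g ≠ f` in `F` contains both `v` and `w₁`, the
midpoint `m` of `v, w₁` has `⟪m,g⟫ < 1` for all `g ≠ f` in `F`, so `m - ε p' ∈ conv V` for a direction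
`p' ∈ f^⊥` pointing to the side of slopes below `s(w₁)`; this point is in `conv V_f` (A1), i.e. `v +`
nonnegative combinations of `d₁, d₂` -- contradiction. Same for `g₂`. `g₁ ≠ g₂`, `lt₁`, `lt₂`: by A3
(`v, w₁, w₂` cannot all be on two faces; `⟪w₁,g₂⟫ ≤ 1` always). `only`: if `E4 v w f g`, `w ≠ w₁,w₂`,
then `w - v = a d₁ + b d₂` with `a, b > 0` (slopes strictly between), and `0 = ⟪w-v,g⟫ = a⟪d₁,g⟫ + b⟪d₂,g⟫`
with both `≤ 0` gives `⟪w₁,g⟫ = ⟪w₂,g⟫ = 1`, contradiction with A3; if `w = w₁` then `g = g₁` by the dual of A3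
(`v, w₁` have at most two common faces). `cone`: `x - v` is in the plane `f^⊥`, spanned by `d₁, d₂`:
`x - v = a d₁ + b d₂`; pairing with `g₁`: `0 ≥ ⟪x-v,g₁⟫ = b ⟪d₂,g₁⟫` with `⟪d₂,g₁⟫ < 0` gives `b ≥ 0`; same `a ≥ 0`. -/
def Stm_A5 : Prop := ∀ V F : Finset E3, DP V F → ∀ v ∈ V, ∀ f ∈ F, inner ℝ v f = (1 : ℝ) →
  ∃ w₁ w₂ g₁ g₂, Flag2 V F v f w₁ w₂ g₁ g₂

/-- A6 (planar simplex lemma). If both `f`-neighbours of `v` have `⟪·,ℓ⟫ ≤` its value at `v`, then every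
vertex of `f` has. Proof: `Flag2.cone` for `x = w ∈ V_f`. -/
def Stm_A6 : Prop := ∀ V F : Finset E3, DP V F → ∀ v f w₁ w₂ g₁ g₂ : E3, Flag2 V F v f w₁ w₂ g₁ g₂ →
  ∀ l : E3, inner ℝ w₁ l ≤ (inner ℝ v l : ℝ) → inner ℝ w₂ l ≤ (inner ℝ v l : ℝ) →
  ∀ w ∈ V, inner ℝ w f = (1 : ℝ) → inner ℝ w l ≤ (inner ℝ v l : ℝ)

/-- A7 (face cycle is connected). Let `S` be a set of faces adjacent to `f`, nonempty and not all of
them. Then some vertex `v` of `f` has one of its two `f`-neighbour faces in `S` and the other not.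
Proof. Otherwise every `v ∈ V_f` has both `g₁, g₂ ∈ S` ('type 1') or both not in `S` ('type 0'); the
two ends of an edge of `f` have the same type (the edge `(v,w₁;f,g₁)` is also an edge of the flag
`(w₁,f)`, by `only`). Both types occur (`S` nonempty: take `g ∈ S`, `Adj F V f g` gives an edge
`E4 v w f g`, `v` has type 1 because `g` is one of its `g₁,g₂`; `S` not everything: type 0). Take `v₀ ∈ V_f` of
type 0 and `l = -∑_{g ∈ F_{v₀}} g`: `⟪w,l⟫ > ⟪v₀,l⟫` for all `w ∈ V`, `w ≠ v₀` (all `⟪w,g⟫ ≤ 1 = ⟪v₀,g⟫`, not all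
equal by A2 for `d = w - v₀`). Let `v` be a type-1 vertex of `f` with `⟪v,l⟫` minimal among the type-1
vertices. Its two `f`-neighbours are of
type 1, so A6 for `-l` shows `⟪w,l⟫ ≥ ⟪v,l⟫` for all `w ∈ V_f`, in particular for `w = v₀`:
contradiction (`v ≠ v₀`). -/
def Stm_A7 : Prop := ∀ V F : Finset E3, DP V F → ∀ f ∈ F, ∀ S : Set E3,
  (∃ g, Adj F V f g ∧ g ∈ S) → (∃ g, Adj F V f g ∧ g ∉ S) →
  ∃ v ∈ V, inner ℝ v f = (1 : ℝ) ∧ ∃ g g', Adj F V f g ∧ Adj F V f g' ∧ inner ℝ v g = (1 : ℝ) ∧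
    inner ℝ v g' = (1 : ℝ) ∧ g ∈ S ∧ g' ∉ S

open Classical in
/-- number of flags -/
noncomputable def nflags (V F : Finset E3) : ℕ :=
  ((V ×ˢ F).filter (fun p => inner ℝ p.1 p.2 = (1 : ℝ))).card

/-- A8 (generic functional). There is `l` injective on `V` and outside the planes spanned by two elements
of `F` that are not parallel. Proof: finitely many proper subspaces do not cover `E3`
(`Subspace.biUnion_ne_univ_of_top_nmem` or similar): the planes `(v-w)^⊥` and `span {f,g}`. -/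
def Stm_A8 : Prop := ∀ V F : Finset E3, ∃ l : E3,
  (∀ v ∈ V, ∀ w ∈ V, v ≠ w → inner ℝ v l ≠ (inner ℝ w l : ℝ)) ∧
  (∀ f ∈ F, ∀ g ∈ F, l ∉ Submodule.span ℝ {f, g})

/-- `(v,f)` is an up-down flag for the functional `l`: one edge of `f` at `v` goes up, the other down. -/
def UD (V F : Finset E3) (l v f : E3) : Prop :=
  ∃ w₁ w₂ g₁ g₂, Flag2 V F v f w₁ w₂ g₁ g₂ ∧ inner ℝ w₁ l < (inner ℝ v l : ℝ) ∧ (inner ℝ v l : ℝ) < inner ℝ w₂ l

open Classical in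
/-- A9 (up-down flags, by faces): a face with `k` vertices has exactly `k - 2` up-down vertices.
Proof: `l` injective on `V`: at every vertex of `f` the two edges are both down, both up, or one up one
down (symmetric in the order of `w₁,w₂`: `Flag2` is symmetric). Both down: by A6 the vertex is the unique
maximum of `l` on `V_f`; conversely the maximum has both down. Both up: the unique minimum. The maximum
and minimum are different because `V_f` has at least 3 elements (A4 dual). -/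
def Stm_A9 : Prop := ∀ V F : Finset E3, DP V F → ∀ l : E3,
  (∀ v ∈ V, ∀ w ∈ V, v ≠ w → inner ℝ v l ≠ (inner ℝ w l : ℝ)) → ∀ f ∈ F,
  ((star V f).filter (fun v => UD V F l v f)).card + 2 = (star V f).card

open Classical in
/-- A10 (up-down flags, by vertices). For a generic `l` a vertex that is neither the top nor the bottom has
exactly two up-down faces; top and bottom have none.
Proof. Top: all `w` are below, so no up edge; bottom similar. Otherwise there are `w, w' ∈ V` with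
`⟪w,l⟫ > ⟪v,l⟫ > ⟪w',l⟫`, and an interior point `y` of `conv V` near `0`... : the set of `x` with `⟪x,g⟫ < 1` for
all `g ∈ F` contains `0`; on the segments from `0` to points close to `w` and `w'` take points `x₊, x₋` with
`⟪x₊,l⟫ > ⟪v,l⟫ > ⟪x₋,l⟫` and `⟪x±,g⟫ < 1` for all `g ∈ F` (e.g. `x₊ = (1-ε) w`, `ε` small); a convex
combination `x₀` has `⟪x₀,l⟫ = ⟪v,l⟫` and `⟪x₀,g⟫ < 1` for all `g ∈ F`. Put `d₀ = x₀ - v`: `⟪d₀,l⟫ = 0`,
`⟪d₀,g⟫ < 0` for all `g ∈ F_v`. Choose `p` with `p ⊥ l`, `p ⊥ d₀`, `p ≠ 0`. The slope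
`s(g) = ⟪p,g⟫/(-⟪d₀,g⟫)` is injective on `F_v`: if `s(g) = s(g')` then a combination `α g - β g'`,
`α, β > 0`, is orthogonal to `p` and `d₀`, hence a multiple of `l`, nonzero since `g, g'` are independent
(`⟪v,g⟫ = ⟪v,g'⟫ = 1`, `g ≠ g'`): `l ∈ span {g,g'}`, excluded. `F_v` has at least 3 elements (A4). Let
`g₋, g₊` have minimal and maximal slope. CLAIM: `(v,g)` is up-down iff `g ∈ {g₋,g₊}`.
(⇐) for `g = g₊`: `d = p + s d₀`, `s = s(g₊)`, has `⟪d,l⟫ = 0`, `⟪d,g₊⟫ = ⟪p,g₊⟫ + s⟪d₀,g₊⟫ = 0`, and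
`⟪d,g'⟫ = (-⟪d₀,g'⟫)(s(g') - s) < 0` for the other `g' ∈ F_v`. So `v + εd ∈ conv V` and satisfies
`⟪·,g₊⟫ = 1`; by `Flag2.cone`, `d = a d₁ + b d₂` with `a, b ≥ 0`, not both `0`; `a ≠ 0`: otherwise
`⟪d, g₂⟫ = b ⟪d₂,g₂⟫ = 0` with `g₂ ∈ F_v`, `g₂ ≠ g₊`; same `b ≠ 0`. `0 = ⟪d,l⟫ = a⟪d₁,l⟫ + b⟪d₂,l⟫` and
`⟪dᵢ,l⟫ ≠ 0` give one up, one down. For `g₋` use `d = -p - s(g₋) d₀`.
(⇒) if `(v,g)` is up-down with edge vectors `d₁` (down), `d₂` (up), the combination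
`d = ⟪d₂,l⟫ d₁ - ⟪d₁,l⟫ d₂` (positive coefficients) has `⟪d,l⟫ = 0`, `⟪d,g⟫ = 0` and `⟪d,g'⟫ < 0` for the other
`g' ∈ F_v` (both terms `≤ 0`, not both `0` by A3). `d` is in the plane `l^⊥`, spanned by `p, d₀`:
`d = a p + b d₀`, and `⟪d,g'⟫ = (-⟪d₀,g'⟫)(a s(g') - b)`; so `a s(g') < b = a s(g)` for all `g' ≠ g`: `a ≠ 0`
and `g` has the maximal slope if `a > 0`, the minimal slope if `a < 0`. -/
def Stm_A10 : Prop := ∀ V F : Finset E3, DP V F → ∀ l : E3,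
  (∀ v ∈ V, ∀ w ∈ V, v ≠ w → inner ℝ v l ≠ (inner ℝ w l : ℝ)) →
  (∀ f ∈ F, ∀ g ∈ F, l ∉ Submodule.span ℝ {f, g}) → ∀ v ∈ V,
  ((∀ w ∈ V, w ≠ v → inner ℝ w l < (inner ℝ v l : ℝ)) → ((star F v).filter (fun f => UD V F l v f)).card = 0) ∧
  ((∀ w ∈ V, w ≠ v → (inner ℝ v l : ℝ) < inner ℝ w l) → ((star F v).filter (fun f => UD V F l v f)).card = 0) ∧
  ((∃ w ∈ V, inner ℝ w l < (inner ℝ v l : ℝ)) → (∃ w ∈ V, (inner ℝ v l : ℝ) < inner ℝ w l) →
    ((star F v).filter (fun f => UD V F l v f)).card = 2)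

/-- A11 (Euler). Proof: choose `l` by A8. `∑_f (|V_f| - 2) = #UD flags = ∑_v #UD(v) = 2(|V| - 2)` by A9, A10
(exactly one top and one bottom vertex, different since `|V| ≥ 2`), and `∑_f |V_f| = nflags`. -/
def Stm_A11 : Prop := ∀ V F : Finset E3, DP V F → 2 * V.card + 2 * F.card = nflags V F + 4

/-! ## Part B: from a cage to a midscribed dual pair -/

/-- B1. A cage of the unit ball at the origin contains `0` in its interior, in the form: `P` is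
`{x | ∀ i, ⟪a i, x⟫ ≤ b i}` with all `b i > 0`.
Proof: if some `b i ≤ 0`, move the ball along `γ t = t R a_i`, `R` large: for `x ∈ P`,
`‖x - γ t‖² = ‖x‖² - 2tR⟪x,a_i⟫ + t²R²‖a_i‖² ≥ ‖x‖² + t²R²‖a_i‖²`, and points of the skeleton have `‖x‖ ≥ 1`
(`EdgeTangent`: edges are disjoint from the open ball), so the open ball around `γ t` misses the
skeleton for all `t`, and for `R‖a_i‖ > 1` the ball around `γ 1` misses `P`. This contradicts `Cages P 0`. -/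
def Stm_B1 : Prop := ∀ P ∈ cageClass (0 : E3), ∃ (n : ℕ) (a : Fin n → E3) (b : Fin n → ℝ),
  (∀ i, 0 < b i) ∧ P = {x | ∀ i, inner ℝ (a i) x ≤ b i}

/-- B2. A bounded `P = {x | ∀ i, ⟪a i, x⟫ ≤ b i}` with `b i > 0` is `conv V` for a dual pair `(V,F)`.
Proof: replace `a i` by `a i / b i`, so `b i = 1`. Let `V` = the set of extreme points of `P`: finite,
because an extreme point is determined by its set of active indices (if `v, v'` have the same active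
set and `v ≠ v'`, then `v ± ε(v - v') ∈ P`). `P` is compact convex, so `P = conv V` (Krein-Milman,
`closure_convexHull_extremePoints`, the hull of a finite set is closed). Let `Q = conv ({0} ∪ {a i})`
... `Q = {y | ∀ x ∈ P, ⟪x,y⟫ ≤ 1}` is the polar, which equals `{y | ∀ v ∈ V, ⟪v,y⟫ ≤ 1}`; it is convex, closed
and bounded since `P` contains a ball around `0`. Let `F` = its set of extreme points, finite for the
same reason (it is a finite intersection of half-spaces with `b = 1`), `Q = conv F`. `polF` is clear.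
`polV`: if `⟪x,f⟫ ≤ 1` for all `f ∈ F`, then `⟪x,y⟫ ≤ 1` for all `y ∈ Q`, in particular for `y = a i`
(`a i ∈ Q`), so `x ∈ P`. -/
def Stm_B2 : Prop := ∀ (P : Set E3) (n : ℕ) (a : Fin n → E3) (b : Fin n → ℝ),
  Bornology.IsBounded P → (∀ i, 0 < b i) → P = {x | ∀ i, inner ℝ (a i) x ≤ b i} →
  ∃ V F : Finset E3, DP V F ∧ P = convexHull ℝ (V : Set E3)

/-- B3. The segment of an `E4` is an edge of the polytope (exposed by `f + g`; A1 and A3). -/
def Stm_B3 : Prop := ∀ V F : Finset E3, DP V F → ∀ v w f g, E4 V F v w f g →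
  segment ℝ v w ∈ edges (convexHull ℝ (V : Set E3))

/-- B4. `‖v‖ > 1` for every vertex of an edge-tangent polytope.
Proof: `‖v‖ ≥ 1` since `v` is on an edge (A5 + B3), edges are disjoint from the open ball. Suppose
`‖v‖ = 1`. For every edge `{v,w}`: `‖v + t(w-v)‖² ≥ 1` for `t ∈ [0,1]` gives `⟪v,w-v⟫ ≥ 0`, i.e.
`⟪v,w⟫ ≥ 1`. By A6 (with `l = -v`) `⟪v,x⟫ ≥ 1` for all vertices `x` of all faces `f` containing `v`, hence for
all points of these faces. Take `g ≠ g'` in `F_v` (A4); they are linearly independent, so there is `e`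
with `⟪e,g⟫ = 1`, `⟪e,g'⟫ = -1`. Put `d = -v`; `⟪d,f⟫ = -1 < 0` for all `f ∈ F_v`. Let `t₁ > 0` be maximal
such that `⟪d + t₁ e, f⟫ ≤ 0` for all `f ∈ F_v` (minimum of `1/⟪e,f⟫` over `f ∈ F_v` with `⟪e,f⟫ > 0`, this
set contains `g`), and `t₂ > 0` maximal with `⟪d - t₂ e, f⟫ ≤ 0` for all `f`. For both directions
`d' = d + t₁ e`, `d - t₂ e` some `f ∈ F_v` has `⟪d',f⟫ = 0`, and `v + εd' ∈ conv V` for small `ε`
(`polV`), it is in the hull of the vertices of `f` (A1), so `⟪v, v + εd'⟫ ≥ 1`, `⟪v,d'⟫ ≥ 0`. A convex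
combination of the two is `d`: `⟪v,d⟫ ≥ 0`, but `⟪v,d⟫ = -1`. -/
def Stm_B4 : Prop := ∀ V F : Finset E3, DP V F → EdgeTangent (convexHull ℝ (V : Set E3)) 0 →
  ∀ v ∈ V, 1 < ‖v‖

/-- B5. Edge tangency gives `HT`. Proof: the edge `[v,w]` (B3) has a unique point `u` of norm `1`, all
others have norm `> 1`; `u ≠ v, w` by B4; so `t ↦ ‖v + t(w-v)‖²` has an interior minimum at `u`, hence
`⟪u, w - v⟫ = 0`, and `⟪u,v⟫ = ⟪u,w⟫ = ⟪u,u⟫ = 1`. -/
def Stm_B5 : Prop := ∀ V F : Finset E3, DP V F → EdgeTangent (convexHull ℝ (V : Set E3)) 0 → HT V F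

/-- B6. The length: the total edge length is at least the sum over flags of `tl v`.
Proof. `edges P` is finite: an exposed face `e` of `P = conv V` is `{x ∈ P | ⟪x,l⟫ = max}`, so by A1 it is
`conv (V ∩ e)`, determined by a subset of `V`. For `E4 v w f g`, `segment v w ∈ edges P` (B3), with
diameter `‖v - w‖ = tl v + tl w` (`u` from `HT`: `‖v-u‖² = ‖v‖² - 1`, as `⟪u,v⟫ = ‖u‖² = 1`; `u` is between).
Different unordered pairs give different segments (extreme points of the segment). Sum over unordered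
pairs `{v,w}` with `Adj V F v w`: `∑ (tl v + tl w) = ∑_v (number of w adjacent to v) tl v`, and the number of
`w` adjacent to `v` equals `|F_v|` (double counting of the pairs (w,f): each `f ∈ F_v` has exactly two
`f`-neighbours `w` of `v` (A5), each `w` adjacent to `v` has exactly two common faces with `v` (A3 dual)).
`finsum_mem` over a finite set, all terms nonnegative (`Metric.diam_nonneg`). -/
def Stm_B6 : Prop := ∀ V F : Finset E3, DP V F → HT V F →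
  ∑ v ∈ V, ((star F v).card : ℝ) * tl v ≤ totalLength (convexHull ℝ (V : Set E3))

/-- B7. Half tangency implies the facts on faces: `‖f‖ > 1`, the disc of `f` is in `conv V`, and touching
points are in the open segments of the normals.
Proof. Let `f ∈ F`. Every `v ∈ V_f` has two `f`-edges (A5) with touching points `u₁ ∈ ]v,w₁[`,
`u₂ ∈ ]v,w₂[`; `⟪uᵢ,f⟫ = 1` so `‖f‖ ≥ 1`; `‖f‖ = 1` would give `u₁ = u₂ = f` (equality in Cauchy-Schwarz), and
`v, w₁, w₂` collinear, contradiction (`lt₁`: `⟪w₂,g₁⟫ < 1` while `v,w₁,u₁` are on `g₁`). Let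
`q = f/‖f‖²`, `r² = 1 - 1/‖f‖² > 0`; every touching point `u` of an edge of `f` has `‖u - q‖ = r`. For an edge
`E4 v w f g` of `f` with touching point `u`: in the plane directions `f^⊥` both `g` and `q - u` are
orthogonal to `w - v`, so `⟪y,g⟫ = c ⟪y,q - u⟫` for all `y ⊥ f`, some constant `c ≠ 0`. If `c > 0`: all
`x ∈ V_f` have `0 ≥ ⟪x-u,g⟫ = c⟪x-u,q-u⟫`; so for another touching point `u'` (convex combination of
vertices) `⟪u'-u,q-u⟫ ≤ 0`; but `‖u'-q‖ = ‖u-q‖` gives `⟪u'-u,q-u⟫ = ‖u'-u‖²/2 > 0`. Contradiction, so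
`c < 0` for every edge of `f`. Let `‖y‖ ≤ r`, `y ⊥ f`, `x = q + y`: for every edge
`⟪x,g⟫ - 1 = ⟪x-u,g⟫ = c⟪x - u,q-u⟫ = c(⟪y,q-u⟫ + r²) ≤ 0` (`|⟪y,q-u⟫| ≤ r·r`). So `x` satisfies the
inequalities of all faces adjacent to `f`; then `x ∈ conv V`: otherwise let `y₀` be the point of
`conv V_f` nearest to `x`, `l = x - y₀ ≠ 0`; all `v ∈ V_f` have `⟪v,l⟫ ≤ ⟪y₀,l⟫ < ⟪x,l⟫`; take `v ∈ V_f`
with `⟪v,l⟫` maximal; by `Flag2.cone` `x - v = a d₁ + b d₂`, so `⟪x - v,l⟫ ≤ 0`, contradiction. -/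
def Stm_B7 : Prop := ∀ V F : Finset E3, DP V F → HT V F → ∀ f ∈ F, 1 < ‖f‖ ∧
  (∀ y : E3, inner ℝ y f = (0 : ℝ) → ‖y‖ ^ 2 ≤ 1 - 1 / ‖f‖ ^ 2 →
    (‖f‖ ^ 2)⁻¹ • f + y ∈ convexHull ℝ (V : Set E3))

/-- B8 (discs do not overlap). Proof: for `f ≠ g` in `F`, put `a = ⟪f,g⟫`, `s = tl f`, `s' = tl g`
(`‖f‖² = 1 + s²`). Apply B7 to `f` with `y` = the vector of length `s/‖f‖` in the direction of the
component of `g` orthogonal to `f` (any direction if it is `0`): `⟪q + y, g⟫ ≤ 1`, i.e.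
`a/(1+s²) + (s/‖f‖) √(1 + s'² - a²/(1+s²)) ≤ 1`; hence `a ≤ 1 + s²` and, squaring, `(1-a)² ≥ s² s'²`. By
symmetry `a ≤ 1 + s'²`. If `a > 1 - s s'` then `a ≥ 1 + s s'`, so `s s' ≤ s², s'²`, so `s = s'` and
`a = 1 + s² = ‖f‖‖g‖`, so `f = g` (equality in Cauchy-Schwarz and equal norms). Contradiction. -/
def Stm_B8 : Prop := ∀ V F : Finset E3, DP V F → HT V F → ∀ f ∈ F, ∀ g ∈ F, f ≠ g →
  inner ℝ f g ≤ 1 - tl f * tl g

/-- B9 (adjacent faces). Proof: `E4 v w f g` with touching point `u`: `f - u` and `g - u` are orthogonal to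
`u` and to `w - v` (`⟪u,f⟫ = 1` because `u` is in the segment), hence parallel; `‖f-u‖² = ‖f‖² - 1`. So
`⟪f,g⟫ = 1 + ⟪f-u,g-u⟫ = 1 ± tl f tl g`; by B8 the sign is minus, and then
`u = (tl g f + tl f g)/(tl f + tl g)`. -/
def Stm_B9 : Prop := ∀ V F : Finset E3, DP V F → HT V F → HT F V ∧
  (∀ f g, Adj F V f g → inner ℝ f g = 1 - tl f * tl g) ∧
  (∀ v w f g, E4 V F v w f g → ∃ u ∈ openSegment ℝ v w, u ∈ openSegment ℝ f g ∧ ‖u‖ = 1 ∧
    inner ℝ u v = (1 : ℝ) ∧ inner ℝ u w = (1 : ℝ) ∧ inner ℝ u f = (1 : ℝ) ∧ inner ℝ u g = (1 : ℝ))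

/-- B10. `DP` and `HT` give `Mid`. Proof: `HT F V` by B9; so B7, B8, B9 apply to `(V,F)` and to `(F,V)`. -/
def Stm_B10 : Prop := ∀ V F : Finset E3, DP V F → HT V F → Mid V F

/-- B11 (summary of part B). -/
def Stm_B11 : Prop := ∀ P ∈ cageClass (0 : E3), ∃ V F : Finset E3, Mid V F ∧
  ∑ v ∈ V, ((star F v).card : ℝ) * tl v ≤ totalLength P

/-! ## Part C: angle sums -/

/-- C1 (planar closure). Points `p_i` in the Euclidean plane outside the circle of radius `r`,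
`‖p_i‖² = r² + t_i²`, pairwise `‖p_i - p_j‖ ≥ t_i + t_j`, and for every unit vector `e` some
`⟪e,p_i⟫ ≥ r` -- in the form: the circle is in the convex hull. Then `∑ arctan(t_i/r) = π`.
Proof. `A_i = {θ ∈ (-π,π] : ⟪e(θ),p_i⟫ > r}`, `e(θ) = (cos θ, sin θ)`. With `p_i = ‖p_i‖ e(θ_i)`:
`⟪e(θ),p_i⟫ > r` iff `cos(θ-θ_i) > r/‖p_i‖ = cos(arctan(t_i/r))`, so `∫_{-π}^{π} 1_{A_i} = 2 arctan(t_i/r)`
(periodicity, `Function.Periodic.intervalIntegral_add_eq`). Disjoint: if `θ ∈ A_i ∩ A_j`, put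
`y = r e(θ)`, then `‖p_i - y‖² = r² + t_i² - 2r⟪e,p_i⟫ + r² < t_i²`, so
`‖p_i-p_j‖ ≤ ‖p_i-y‖ + ‖y-p_j‖ < t_i + t_j`. Covering: except for the finitely many `θ` with
`⟪e(θ),p_i-p_j⟫ = 0` for some `i ≠ j` (`p_i ≠ p_j` since `‖p_i-p_j‖ ≥ t_i+t_j > 0`) every `θ` is in some `A_i`:
`y = r e(θ) ∈ conv{p_i}`, so `r = ⟪e,y⟫ ≤ max_i ⟪e,p_i⟫`; if the maximum is `r`, `y` is a convex
combination of those `p_i` with `⟪e,p_i⟫ = r` (there is only one because of the exception), so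
`y = p_i`, but `‖y‖ = r < ‖p_i‖`. -/
def Stm_C1 : Prop := ∀ (ι : Type) (s : Finset ι) (p : ι → EuclideanSpace ℝ (Fin 2)) (t : ι → ℝ) (r : ℝ),
  0 < r → (∀ i ∈ s, 0 < t i) → (∀ i ∈ s, ‖p i‖ ^ 2 = r ^ 2 + t i ^ 2) →
  (∀ i ∈ s, ∀ j ∈ s, i ≠ j → t i + t j ≤ ‖p i - p j‖) →
  (∀ y, ‖y‖ = r → y ∈ convexHull ℝ (p '' (s : Set ι))) →
  ∑ i ∈ s, Real.arctan (t i / r) = Real.pi

/-- C2 (face closure). Proof: isometry of the plane `{x | ⟪x,f⟫ = 1}` with origin `q = f/‖f‖²` to `ℝ²`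
(orthonormal basis of `f^⊥`); `p_v = v - q`, `‖p_v‖² = ‖v‖² - 1/‖f‖² = r² + tl v²`, `r² = 1 - 1/‖f‖²`,
`r = sin σ = tl f/‖f‖`; `‖v-w‖² = ‖v‖² + ‖w‖² - 2⟪v,w⟫ ≥ (tl v + tl w)²` by `inner_V`. Circle in the hull: the
point `x = q + y`, `‖y‖ = r`, `y ⊥ f`, satisfies `⟪x,g⟫ ≤ 1` for all `g ∈ F` by `inner_F` (the computation of B8
backwards: `⟪x,g⟫ ≤ a/(1+s²) + (s/‖f‖)√(1+s'²-a²/(1+s²))` with `a ≤ 1 - s s'`; the right side is `≤ 1` iff
`s² (…) ≤ …`, reduces to `(1-a)² ≥ s²s'²` and `a ≤ 1 + s²`), so `x ∈ conv V` (`polV`), and `x ∈ conv V_f` by A1.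
Then `arctan(tl v / r) = ph (hx v) (hx f)`: with `x = hx v`, `z = hx f`, `tl v = 2x/(1-x²)`,
`r = 2z/(1+z²)`, `tan(θ - ω) = (z/x - xz)/(1+z²) = z(1-x²)/(x(1+z²)) = r/tl v`, and `θ - ω ∈ (0,π/2)`. -/
def Stm_C2 : Prop := ∀ V F : Finset E3, Mid V F → ∀ f ∈ F, ∑ v ∈ star V f, ph (hx v) (hx f) = Real.pi

/-- C3 (vertex closure): C2 for the swapped pair; `ph z x = ps x z` for `x, z > 0` (arctan(x/z) =
π/2 - arctan(z/x)). -/
def Stm_C3 : Prop := ∀ V F : Finset E3, Mid V F → ∀ v ∈ V, ∑ f ∈ star F v, ps (hx v) (hx f) = Real.pi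

/-- C4 (total): `∑` over flags of `om = π`. Proof: `φ + ψ = π/2 + 2ω`; sum over flags:
`π|F| + π|V| = nflags·π/2 + 2∑ω`, and A11. -/
def Stm_C4 : Prop := ∀ V F : Finset E3, Mid V F →
  ∑ f ∈ F, ∑ v ∈ star V f, om (hx v) (hx f) = Real.pi

/-- C5 (three caps). Proof: with `‖f‖ = 1/cos σ`, `inner_F` says `cos ∠(f,g) ≤ cos(σ_f + σ_g)`, i.e.
`∠(f,g) ≥ σ_f + σ_g` (`σ_f + σ_g < π`). The three angles between three vectors have sum `≤ 2π`
(triangle inequality for angles with `-h`: `∠(f,g) ≤ ∠(f,-h) + ∠(-h,g) = 2π - ∠(f,h) - ∠(g,h)`), so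
`σ_f + σ_g + σ_h ≤ π`; with `z = tan(σ/2)`: `σ_f/2 + σ_g/2 ≤ π/2 - σ_h/2` gives
`(z_f+z_g)/(1-z_f z_g) ≤ 1/z_h` (`z < 1`, `z_f z_g < 1`). -/
def Stm_C5 : Prop := ∀ V F : Finset E3, Mid V F → ∀ f ∈ F, ∀ g ∈ F, ∀ h ∈ F, f ≠ g → g ≠ h → f ≠ h →
  hx f * hx g + hx g * hx h + hx h * hx f ≤ 1

/-! ## Part D: coordinates relative to an adjacent pair of faces -/

/-- Coordinates with respect to the adjacent faces `f₀, f₁` with touching point `T`. -/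
structure Coord (V F : Finset E3) (f₀ f₁ T e d : E3) : Prop where
  nT : ‖T‖ = 1
  ne : ‖e‖ = 1
  nd : ‖d‖ = 1
  Te : inner ℝ T e = (0 : ℝ)
  Td : inner ℝ T d = (0 : ℝ)
  ed : inner ℝ e d = (0 : ℝ)
  h₀ : f₀ = T + tl f₀ • e
  h₁ : f₁ = T - tl f₁ • e

/-- D1. Existence of coordinates. Proof: `touch` for the edge common to `f₀, f₁`: `f₀ - u`, `f₁ - u` are
orthogonal to `u` and parallel in opposite directions (`u` in the open segment), lengths `tl`. -/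
def Stm_D1 : Prop := ∀ V F : Finset E3, Mid V F → ∀ f₀ f₁, Adj F V f₀ f₁ → ∃ T e d, Coord V F f₀ f₁ T e d

/-- D2. A face `g` adjacent to both. With `s = tl`, `h = s₀s₁/(s₀+s₁)`, `k = (s₀-s₁)/(s₀+s₁)`:
`g = (1-2hs)T - s k e + 2 s ξ d`, `ξ = ⟪g,d⟫/(2 s)`, and `h/s = ξ² + h² - y(1-y)` with `y = s₁/(s₀+s₁)`.
Proof: the inner products with `f₀, f₁` are `1 - s₀ s`, `1 - s₁ s` (`adj_F`), and `‖g‖² = 1 + s²`. -/
def Stm_D2 : Prop := ∀ V F : Finset E3, Mid V F → ∀ f₀ f₁ T e d, Coord V F f₀ f₁ T e d →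
  ∀ g, Adj F V g f₀ → Adj F V g f₁ →
  inner ℝ g T = 1 - 2 * (tl f₀ * tl f₁ / (tl f₀ + tl f₁)) * tl g ∧
  inner ℝ g e = - tl g * ((tl f₀ - tl f₁) / (tl f₀ + tl f₁)) ∧
  (tl f₀ * tl f₁ / (tl f₀ + tl f₁)) / tl g = (inner ℝ g d / (2 * tl g)) ^ 2 +
    (tl f₀ * tl f₁ / (tl f₀ + tl f₁)) ^ 2 - tl f₁ * tl f₀ / (tl f₀ + tl f₁) ^ 2

/-- D3. Two different faces `g, g'` adjacent to both `f₀` and `f₁`: `|ξ - ξ'| ≥ 1`, with equality if they
are adjacent. Proof: `⟪g,g'⟫ ≤ 1 - s s'` (`inner_F`), expand with D2: it is equivalent to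
`(ξ-ξ')² ≥ 1`, with equality iff equality. -/
def Stm_D3 : Prop := ∀ V F : Finset E3, Mid V F → ∀ f₀ f₁ T e d, Coord V F f₀ f₁ T e d →
  ∀ g g', Adj F V g f₀ → Adj F V g f₁ → Adj F V g' f₀ → Adj F V g' f₁ → g ≠ g' →
  1 ≤ (inner ℝ g d / (2 * tl g) - inner ℝ g' d / (2 * tl g')) ^ 2 ∧
  (Adj F V g g' → (inner ℝ g d / (2 * tl g) - inner ℝ g' d / (2 * tl g')) ^ 2 = 1)

/-- D4. The two common vertices of `f₀, f₁` are `T ± tl(C) d`, one with each sign, and every `g` adjacent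
to both has `ξ ≤ h/tl C` for the one with `+`, `-ξ ≤ h/tl C` for the one with `-`, equality if `C ∈ g`.
Proof: `C` is on the line `{⟪x,f₀⟫ = ⟪x,f₁⟫ = 1} = T + ℝ d`, `‖C‖² = 1 + tl C²`; `T` is between the two;
`1 ≥ ⟪C,g⟫ = 1 - 2hs ± tl C · 2 s ξ`. -/
def Stm_D4 : Prop := ∀ V F : Finset E3, Mid V F → ∀ f₀ f₁ T e d, Coord V F f₀ f₁ T e d → Adj F V f₀ f₁ →
  ∃ C ∈ V, ∃ C' ∈ V, C ≠ C' ∧ C = T + tl C • d ∧ C' = T - tl C' • d ∧
    inner ℝ C f₀ = (1 : ℝ) ∧ inner ℝ C f₁ = (1 : ℝ) ∧ inner ℝ C' f₀ = (1 : ℝ) ∧ inner ℝ C' f₁ = (1 : ℝ) ∧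
    (∀ g, Adj F V g f₀ → Adj F V g f₁ →
      inner ℝ g d / (2 * tl g) ≤ (tl f₀ * tl f₁ / (tl f₀ + tl f₁)) / tl C ∧
      - ((tl f₀ * tl f₁ / (tl f₀ + tl f₁)) / tl C') ≤ inner ℝ g d / (2 * tl g) ∧
      (inner ℝ C g = (1 : ℝ) → inner ℝ g d / (2 * tl g) = (tl f₀ * tl f₁ / (tl f₀ + tl f₁)) / tl C) ∧
      (inner ℝ C' g = (1 : ℝ) → inner ℝ g d / (2 * tl g) = - ((tl f₀ * tl f₁ / (tl f₀ + tl f₁)) / tl C')))

end Pool.Agent.Lib.MP_af06f6_co
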