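import Mathlib
import Pool.Agent.Lib.MP_af06f6_co.G.Stm

/-!
# MP_af06f6_co, geometry part: duality swap and small lemmas for use in all pieces
-/

open Set Metric

namespace Pool.Agent.Lib.MP_af06f6_co

theorem DP.swap {V F : Finset E3} (h : DP V F) : DP F V where
  polV := fun x => by
    rw [h.polF x]
    exact forall₂_congr fun v _ => by rw [real_inner_comm]
  polF := fun y => by
    rw [h.polV y]
    exact forall₂_congr fun f _ => by rw [real_inner_comm]
  extV := h.extF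
  extF := h.extV
  neV := h.neF
  neF := h.neV

theorem E4.swap {V F : Finset E3} {v w f g : E3} (h : E4 V F v w f g) : E4 F V f g v w where
  hv := h.hf
  hw := h.hg
  hf := h.hv
  hg := h.hw
  hvw := h.hfg
  hfg := h.hvw
  vf := by rw [real_inner_comm]; exact h.vf
  vg := by rw [real_inner_comm]; exact h.wf
  wf := by rw [real_inner_comm]; exact h.vg
  wg := by rw [real_inner_comm]; exact h.wg

theorem E4.symmV {V F : Finset E3} {v w f g : E3} (h : E4 V F v w f g) : E4 V F w v f g :=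
  ⟨h.hw, h.hv, h.hf, h.hg, h.hvw.symm, h.hfg, h.wf, h.wg, h.vf, h.vg⟩

theorem E4.symmF {V F : Finset E3} {v w f g : E3} (h : E4 V F v w f g) : E4 V F v w g f :=
  ⟨h.hv, h.hw, h.hg, h.hf, h.hvw, h.hfg.symm, h.vg, h.vf, h.wg, h.wf⟩

/-- the two faces of an edge are adjacent -/
theorem E4.adjF {V F : Finset E3} {v w f g : E3} (h : E4 V F v w f g) : Adj F V f g :=
  ⟨h.hf, h.hg, h.hfg, v, h.hv, w, h.hw, h.hvw, h.vf, h.vg, h.wf, h.wg⟩

/-- the two vertices of an edge are adjacent -/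
theorem E4.adjV {V F : Finset E3} {v w f g : E3} (h : E4 V F v w f g) : Adj V F v w :=
  h.swap.adjF

theorem Adj.exE4F {V F : Finset E3} {f g : E3} (h : Adj F V f g) : ∃ v w, E4 V F v w f g := by
  obtain ⟨hf, hg, hfg, v, hv, w, hw, hvw, h1, h2, h3, h4⟩ := h
  exact ⟨v, w, hv, hw, hf, hg, hvw, hfg, h1, h2, h3, h4⟩

theorem Adj.exE4V {V F : Finset E3} {v w : E3} (h : Adj V F v w) : ∃ f g, E4 V F v w f g := by
  obtain ⟨f, g, h'⟩ := h.exE4F
  exact ⟨f, g, h'.swap⟩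

theorem Adj.symm {A B : Finset E3} {f g : E3} (h : Adj A B f g) : Adj A B g f := by
  obtain ⟨v, w, h'⟩ := h.exE4F
  exact h'.symmF.adjF

theorem mem_star {A : Finset E3} {f v : E3} : v ∈ star A f ↔ v ∈ A ∧ inner ℝ v f = (1 : ℝ) := by
  classical
  simp [star]

theorem mem_star' {A : Finset E3} {f v : E3} : v ∈ star A f ↔ v ∈ A ∧ inner ℝ f v = (1 : ℝ) := by
  rw [mem_star, real_inner_comm]

theorem Flag2.symm {V F : Finset E3} {v f w₁ w₂ g₁ g₂ : E3} (h : Flag2 V F v f w₁ w₂ g₁ g₂) :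
    Flag2 V F v f w₂ w₁ g₂ g₁ where
  e₁ := h.e₂
  e₂ := h.e₁
  hw := h.hw.symm
  hg := h.hg.symm
  lt₁ := h.lt₂
  lt₂ := h.lt₁
  only := fun w g hwg => (h.only w g hwg).symm
  cone := fun x h1 h2 h3 => by
    obtain ⟨a, b, ha, hb, hx⟩ := h.cone x h1 h3 h2
    exact ⟨b, a, hb, ha, by rw [hx, add_comm]⟩

theorem Mid.swap {V F : Finset E3} (h : Mid V F) : Mid F V where
  toDP := h.toDP.swap
  one_lt_V := h.one_lt_F
  one_lt_F := h.one_lt_V
  inner_V := h.inner_F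
  inner_F := h.inner_V
  adj_V := h.adj_F
  adj_F := h.adj_V
  touch := fun v w f g hE => by
    obtain ⟨u, h1, h2, h3, h4, h5, h6, h7⟩ := h.touch f g v w hE.swap
    exact ⟨u, h2, h1, h3, h6, h7, h4, h5⟩

theorem tl_pos {v : E3} (h : 1 < ‖v‖) : 0 < tl v := by
  unfold tl
  apply Real.sqrt_pos.2
  nlinarith [norm_nonneg v]

theorem tl_sq {v : E3} (h : 1 < ‖v‖) : tl v ^ 2 = ‖v‖ ^ 2 - 1 := by
  unfold tl
  rw [Real.sq_sqrt]
  nlinarith [norm_nonneg v]

theorem hx_pos {v : E3} (h : 1 < ‖v‖) : 0 < hx v := by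
  unfold hx
  apply Real.sqrt_pos.2
  apply div_pos <;> linarith

theorem hx_sq {v : E3} (h : 1 < ‖v‖) : hx v ^ 2 = (‖v‖ - 1) / (‖v‖ + 1) := by
  unfold hx
  rw [Real.sq_sqrt]
  apply div_nonneg <;> linarith

theorem hx_lt_one {v : E3} (h : 1 < ‖v‖) : hx v < 1 := by
  have h1 := hx_sq h
  have h2 : (‖v‖ - 1) / (‖v‖ + 1) < 1 := by
    rw [div_lt_one (by linarith)]
    linarith
  have h3 := hx_pos h
  nlinarith

theorem one_sub_hx_sq {v : E3} (h : 1 < ‖v‖) : 1 - hx v ^ 2 = 2 / (‖v‖ + 1) := by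
  rw [hx_sq h]
  have : ‖v‖ + 1 ≠ 0 := by positivity
  field_simp
  ring

theorem one_add_hx_sq {v : E3} (h : 1 < ‖v‖) : 1 + hx v ^ 2 = 2 * ‖v‖ / (‖v‖ + 1) := by
  rw [hx_sq h]
  have : ‖v‖ + 1 ≠ 0 := by positivity
  field_simp
  ring

/-- `tan ρ = 2x/(1-x²)` -/
theorem tl_eq_hx {v : E3} (h : 1 < ‖v‖) : tl v = 2 * hx v / (1 - hx v ^ 2) := by
  have h1 := hx_sq h
  have h0 := hx_pos h
  have hv : 0 < ‖v‖ + 1 := by positivity
  have h2 : tl v = hx v * (‖v‖ + 1) := by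
    have h3 : tl v ^ 2 = (hx v * (‖v‖ + 1)) ^ 2 := by
      rw [tl_sq h, mul_pow, h1]
      field_simp
      ring
    have h4 := tl_pos h
    have h5 : 0 < hx v * (‖v‖ + 1) := by positivity
    nlinarith
  rw [one_sub_hx_sq h, h2]
  field_simp

/-- `sin σ = 2z/(1+z²)` -/
theorem tl_div_norm {v : E3} (h : 1 < ‖v‖) : tl v / ‖v‖ = 2 * hx v / (1 + hx v ^ 2) := by
  have h0 : 0 < ‖v‖ := by linarith
  have h1 : (1 : ℝ) - hx v ^ 2 ≠ 0 := by
    rw [one_sub_hx_sq h]
    positivity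
  have h2 : (1 : ℝ) + hx v ^ 2 ≠ 0 := by positivity
  have h3 : ‖v‖ = (1 + hx v ^ 2) / (1 - hx v ^ 2) := by
    rw [one_add_hx_sq h, one_sub_hx_sq h]
    field_simp
  rw [tl_eq_hx h, h3]
  field_simp

theorem nflags_eq_sum_star (V F : Finset E3) : nflags V F = ∑ f ∈ F, (star V f).card := by
  classical
  unfold nflags star
  rw [Finset.card_filter, Finset.sum_product_right]
  apply Finset.sum_congr rfl
  intro f _
  rw [Finset.card_filter]

theorem nflags_eq_sum_star' (V F : Finset E3) : nflags V F = ∑ v ∈ V, (star F v).card := by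
  classical
  unfold nflags star
  rw [Finset.card_filter, Finset.sum_product]
  apply Finset.sum_congr rfl
  intro f _
  rw [Finset.card_filter]
  apply Finset.sum_congr rfl
  intro g _
  rw [real_inner_comm]

end Pool.Agent.Lib.MP_af06f6_co
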