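import Mathlib
import Pool.Agent.Lib.MP_af06f6_co.G.Swap

/-!
# MP_af06f6_co, geometry part: the long pieces of `G/Stm.lean` split into sub-pieces
-/

open Set Metric MeasureTheory

namespace Pool.Agent.Lib.MP_af06f6_co

/-! ## sub-pieces of A5 -/

/-- A5a (planar cone lemma, pure linear algebra).
Proof. Let `l'` be the component of `l` orthogonal to `f` (`⟪d,l'⟫ = ⟪d,l⟫ > 0` for `d ∈ D`, so `l' ≠ 0`), and
`p ≠ 0` orthogonal to `f` and `l'` (e.g. a cross product, or a nonzero vector in the orthogonal complement of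
`span {f, l'}`, finrank `≤ 2 < 3`). So `f, l', p` is an orthogonal basis: a vector orthogonal to all three is `0`.
Put `s(d) = ⟪d,p⟫ / ⟪d,l⟫`; `s` is injective on `D` (equal slopes: `⟪d',l⟫ • d - ⟪d,l⟫ • d'` is orthogonal to
`f, l', p`, so `0`: contradicts independence). Let `d₁` have minimal and `d₂` maximal slope
(`Finset.exists_min_image`), `d₁ ≠ d₂` since `D` has two elements. For `d ≠ d₁, d₂`: `s(d₁) < s(d) < s(d₂)`,
`λ = (s(d₂)-s(d))/(s(d₂)-s(d₁))`, `a = λ⟪d,l⟫/⟪d₁,l⟫`, `b = (1-λ)⟪d,l⟫/⟪d₂,l⟫`. The vector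
`d - a d₁ - b d₂` is orthogonal to `f, l', p`. Normals: `n₁ = p - s(d₁) • l'`, `n₂ = s(d₂) • l' - p`. -/
def Stm_A5a : Prop := ∀ (D : Finset E3) (f l : E3), f ≠ 0 → (∀ d ∈ D, inner ℝ d f = (0 : ℝ)) →
  (∀ d ∈ D, (0 : ℝ) < inner ℝ d l) →
  (∀ d ∈ D, ∀ d' ∈ D, d ≠ d' → LinearIndependent ℝ ![d, d']) → 2 ≤ D.card →
  ∃ d₁ ∈ D, ∃ d₂ ∈ D, d₁ ≠ d₂ ∧
    (∀ d ∈ D, d ≠ d₁ → d ≠ d₂ → ∃ a b : ℝ, 0 < a ∧ 0 < b ∧ d = a • d₁ + b • d₂) ∧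
    (∃ n : E3, inner ℝ n f = (0 : ℝ) ∧ inner ℝ d₁ n = (0 : ℝ) ∧ ∀ d ∈ D, d ≠ d₁ → (0 : ℝ) < inner ℝ d n) ∧
    (∃ n : E3, inner ℝ n f = (0 : ℝ) ∧ inner ℝ d₂ n = (0 : ℝ) ∧ ∀ d ∈ D, d ≠ d₂ → (0 : ℝ) < inner ℝ d n)

/-- A5b (a supporting segment of a face is on a second face).
Proof: if not, every `g ∈ F`, `g ≠ f` has `⟪v,g⟫ < 1` or `⟪w,g⟫ < 1` (both are `≤ 1` by `polV`), so the midpoint
`m` of `v, w` has `⟪m,g⟫ < 1` for all `g ∈ F \ {f}`, and `⟪m,f⟫ = 1`. For small `ε > 0` (finitely many `g`)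
`x = m - ε n` has `⟪x,f⟫ = 1` and `⟪x,g⟫ ≤ 1`, so `x ∈ conv V` (`polV`) and, by A1, `x` is in the hull of
`{w' ∈ V | ⟪w',f⟫ = 1}`; hence `⟪x - v, n⟫ ≥ 0`. But `⟪x-v,n⟫ = ½⟪w-v,n⟫ - ε‖n‖² = - ε‖n‖² < 0`. -/
def Stm_A5b : Prop := ∀ V F : Finset E3, DP V F → ∀ v ∈ V, ∀ f ∈ F, inner ℝ v f = (1 : ℝ) →
  ∀ w ∈ V, inner ℝ w f = (1 : ℝ) → ∀ n : E3, n ≠ 0 → inner ℝ n f = (0 : ℝ) → inner ℝ (w - v) n = (0 : ℝ) →
  (∀ w' ∈ V, inner ℝ w' f = (1 : ℝ) → (0 : ℝ) ≤ inner ℝ (w' - v) n) →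
  ∃ g ∈ F, g ≠ f ∧ inner ℝ v g = (1 : ℝ) ∧ inner ℝ w g = (1 : ℝ)

/-! ## sub-pieces of A10 -/

open Classical in
/-- A10a (exactly two extreme elements, pure linear algebra).
Proof. `d₀ ≠ 0` (if `G` is nonempty). Choose `p ≠ 0` with `p ⊥ l`, `p ⊥ d₀`; `l, d₀, p` is an orthogonal basis.
`s(g) = ⟪p,g⟫/(-⟪d₀,g⟫)` is injective on `G`: if `s(g) = s(g')` then `x = (-⟪d₀,g'⟫) g - (-⟪d₀,g⟫) g'` is orthogonal
to `p` and `d₀`, so a multiple of `l`; `x ≠ 0` by independence; so `l ∈ span {g,g'}`, excluded. Let `g₋, g₊`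
have minimal and maximal slope; `g₋ ≠ g₊`. Then the filtered set is `{g₋, g₊}`.
`g₊` is in it: `d = p + s(g₊) d₀`: `⟪d,g'⟫ = (-⟪d₀,g'⟫)(s(g') - s(g₊))`. `g₋`: `d = -p - s(g₋) d₀`.
Conversely let `d` be as in the filter for `g`. `d = a p + b d₀` (`d ⊥ l`), `⟪d,g'⟫ = (-⟪d₀,g'⟫)(a s(g') - b)`;
so `a s(g') < b = a s(g)` for all `g' ≠ g` in `G`: `a ≠ 0` (there is another `g'`), and `g` has maximal slope
if `a > 0`, minimal slope if `a < 0`. -/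
def Stm_A10a : Prop := ∀ (G : Finset E3) (l d₀ : E3), 2 ≤ G.card → l ≠ 0 → inner ℝ d₀ l = (0 : ℝ) →
  (∀ g ∈ G, inner ℝ d₀ g < (0 : ℝ)) →
  (∀ g ∈ G, ∀ g' ∈ G, g ≠ g' → l ∉ Submodule.span ℝ {g, g'}) →
  (∀ g ∈ G, ∀ g' ∈ G, g ≠ g' → LinearIndependent ℝ ![g, g']) →
  (G.filter (fun g => ∃ d : E3, inner ℝ d l = (0 : ℝ) ∧ inner ℝ d g = (0 : ℝ) ∧
    ∀ g' ∈ G, g' ≠ g → inner ℝ d g' < (0 : ℝ))).card = 2

/-- A10b (up-down flags are the extreme elements).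
Proof. (⇐) Let `Flag2 V F v g w₁ w₂ g₁ g₂` by A5. `x = v + d` has `⟪x,g⟫ = 1`, `⟪x,gᵢ⟫ ≤ 1`
(`gᵢ ∈ F_v`, `gᵢ ≠ g`), so `d = a (w₁-v) + b (w₂-v)`, `a, b ≥ 0` (`cone`). `a ≠ 0`: otherwise `⟪d,g₂⟫ = b⟪w₂-v,g₂⟫ = 0`,
but `⟪d,g₂⟫ < 0`; same `b ≠ 0` with `g₁`. `0 = ⟪d,l⟫ = a⟪w₁-v,l⟫ + b⟪w₂-v,l⟫`, `⟪wᵢ-v,l⟫ ≠ 0` (`l` injective on `V`), so
one is negative and one positive; use `Flag2.symm` if necessary.
(⇒) `Flag2 V F v g w₁ w₂ g₁ g₂`, `⟪w₁,l⟫ < ⟪v,l⟫ < ⟪w₂,l⟫`, `d = ⟪w₂-v,l⟫ • (w₁-v) + ⟪v-w₁,l⟫ • (w₂-v)` has positive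
coefficients, `⟪d,l⟫ = 0`, `⟪d,g⟫ = 0`, and for `g' ∈ F_v`, `g' ≠ g`: `⟪wᵢ-v,g'⟫ ≤ 0`, not both `0` by A3. -/
def Stm_A10b : Prop := ∀ V F : Finset E3, DP V F → ∀ l : E3,
  (∀ v ∈ V, ∀ w ∈ V, v ≠ w → inner ℝ v l ≠ (inner ℝ w l : ℝ)) → ∀ v ∈ V, ∀ g ∈ star F v,
  (UD V F l v g ↔ ∃ d : E3, inner ℝ d l = (0 : ℝ) ∧ inner ℝ d g = (0 : ℝ) ∧
    ∀ g' ∈ star F v, g' ≠ g → inner ℝ d g' < (0 : ℝ))

/-- A10c (direction into the interior inside the level plane).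
Proof. `w` above, `w'` below. For small `ε > 0`, `x₊ = (1-ε) w`, `x₋ = (1-ε) w'` satisfy
`⟪x₊,l⟫ > ⟪v,l⟫ > ⟪x₋,l⟫` and `⟪x±,g⟫ < 1` for all `g ∈ F` (`⟪w,g⟫ ≤ 1`, so `(1-ε)⟪w,g⟫ < 1` for `0 < ε < 1`). A convex
combination `x₀` has `⟪x₀,l⟫ = ⟪v,l⟫`, `⟪x₀,g⟫ < 1`. Put `d₀ = x₀ - v`. -/
def Stm_A10c : Prop := ∀ V F : Finset E3, DP V F → ∀ l : E3, ∀ v ∈ V,
  (∃ w ∈ V, inner ℝ w l < (inner ℝ v l : ℝ)) → (∃ w ∈ V, (inner ℝ v l : ℝ) < inner ℝ w l) →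
  ∃ d₀ : E3, inner ℝ d₀ l = (0 : ℝ) ∧ ∀ g ∈ F, inner ℝ v g = (1 : ℝ) → inner ℝ d₀ g < (0 : ℝ)

/-! ## sub-piece of B2 -/

/-- B2a (a bounded H-polytope is the hull of its finitely many extreme points).
Proof. Finiteness: an extreme point is determined by its set of active indices `{i | ⟪a i, x⟫ = b i}` (if two
extreme points `v ≠ v'` have the same active set, then `v ± ε(v - v') ∈ P` for small `ε > 0`, so `v` is in an
open segment of `P`); so the map to `Finset (Fin n)` is injective on extreme points. `P` is closed and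
bounded, so compact, and convex: Krein-Milman `closure_convexHull_extremePoints`; the hull of a finite set
is closed (`Set.Finite.isClosed_convexHull` or `Set.Finite.isCompact_convexHull`). -/
def Stm_B2a : Prop := ∀ (n : ℕ) (a : Fin n → E3) (b : Fin n → ℝ),
  Bornology.IsBounded {x : E3 | ∀ i, inner ℝ (a i) x ≤ b i} →
  ∃ V : Finset E3, (V : Set E3) = extremePoints ℝ {x : E3 | ∀ i, inner ℝ (a i) x ≤ b i} ∧
    {x : E3 | ∀ i, inner ℝ (a i) x ≤ b i} = convexHull ℝ (V : Set E3)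

/-! ## sub-pieces of B6 -/

/-- B6a. A polytope has finitely many edges.
Proof: an exposed nonempty face `e` of `conv V` is `{x ∈ P | l x maximal}`; by A1 (or directly) it is the convex hull of
`{v ∈ V | v ∈ e}`, so it is determined by a subset of `V`: `edges P ⊆ (fun W => convexHull ℝ W) '' (V.powerset)`. -/
def Stm_B6a : Prop := ∀ V : Finset E3, (edges (convexHull ℝ (V : Set E3))).Finite

/-- B6b. Length of an edge. Proof: `u ∈ openSegment v w` from `HT`: `‖v-u‖² = ‖v‖² - 2 + 1`, same for `w`,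
`‖v-w‖ = ‖v-u‖ + ‖u-w‖`; the diameter of a segment is the distance of its ends. -/
def Stm_B6b : Prop := ∀ V F : Finset E3, HT V F → ∀ v w f g, E4 V F v w f g →
  Metric.diam (segment ℝ v w) = tl v + tl w

open Classical in
/-- B6c. The number of neighbours of a vertex is the number of its faces.
Proof: double counting of the set of pairs `(w, f)`, `w ∈ V`, `f ∈ F_v`, for which `∃ g, E4 V F v w f g`. For
`f ∈ F_v` there are exactly two such `w` (A5: `w₁ ≠ w₂` by `Flag2.hw`, `only`). For `w` adjacent to `v` there are exactly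
two such `f`: `f₀, g₀` from the adjacency, and a third one would be a third common face of
`v, w`, contradicting A3 for the swapped pair; for `w` not adjacent there is none. So `2 · #neighbours = 2 · |F_v|`. -/
def Stm_B6c : Prop := ∀ V F : Finset E3, DP V F → ∀ v ∈ V,
  (V.filter (fun w => Adj V F v w)).card = (star F v).card

/-! ## sub-pieces of B7 -/

/-- B7a. `‖f‖ > 1`. Proof: `f ∈ F` is incident with some `v ∈ V` (A4 for the swapped pair), which has two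
`f`-edges (A5) with touching points `u₁ ∈ ]v,w₁[`, `u₂ ∈ ]v,w₂[`; `⟪uᵢ,f⟫ = 1`, so `‖f‖ ≥ 1` (Cauchy-Schwarz); `‖f‖ = 1`
would give `u₁ = u₂ = f` (equality case, `‖u - f‖² = 1 - 2 + 1 = 0`); then `w₂` is on the line through `v` and `u₁`,
which lies in `{⟪·,g₁⟫ = 1}`, contradicting `lt₂ : ⟪w₂,g₁⟫ < 1`. -/
def Stm_B7a : Prop := ∀ V F : Finset E3, DP V F → HT V F → ∀ f ∈ F, 1 < ‖f‖

/-- B7b. The disc satisfies the inequality of an adjacent face. Proof: see B7 in `G/Stm.lean` (constant `c`). -/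
def Stm_B7b : Prop := ∀ V F : Finset E3, DP V F → HT V F → ∀ f g, Adj F V f g →
  ∀ y : E3, inner ℝ y f = (0 : ℝ) → ‖y‖ ^ 2 ≤ 1 - 1 / ‖f‖ ^ 2 → inner ℝ ((‖f‖ ^ 2)⁻¹ • f + y) g ≤ (1 : ℝ)

/-- B7c (local to global in a face). Proof: otherwise `x ∉ conv V_f`, `V_f = {v ∈ V | ⟪v,f⟫ = 1}` (compact
convex, nonempty), so there is `l` with `⟪v,l⟫ < ⟪x,l⟫` for all `v ∈ V_f` (`geometric_hahn_banach_point_closed` or the
nearest point); take `v ∈ V_f` with `⟪v,l⟫` maximal, and `Flag2 V F v f w₁ w₂ g₁ g₂` (A5); `g₁, g₂` are adjacent to `f`; by `cone`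
`x - v = a (w₁-v) + b (w₂-v)`, `a, b ≥ 0`, so `⟪x - v,l⟫ ≤ 0`, contradiction. -/
def Stm_B7c : Prop := ∀ V F : Finset E3, DP V F → ∀ f ∈ F, ∀ x : E3, inner ℝ x f = (1 : ℝ) →
  (∀ g, Adj F V f g → inner ℝ x g ≤ (1 : ℝ)) → x ∈ convexHull ℝ (V : Set E3)

/-! ## sub-pieces of C1, C2 -/

/-- C1a (measure of an arc). Proof: the function `θ ↦ 1` if `cos γ < cos (θ - μ)`, else `0`, is `2π`-periodic; its integral
over a period does not depend on the period (`Function.Periodic.intervalIntegral_add_eq`), and over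
`[μ - π, μ + π]` the set is `(μ - γ, μ + γ)` (`cos` is strictly decreasing on `[0,π]` and even). -/
def Stm_C1a : Prop := ∀ γ μ : ℝ, 0 ≤ γ → γ ≤ Real.pi →
  volume {θ : ℝ | θ ∈ Ioc (-Real.pi) Real.pi ∧ Real.cos γ < Real.cos (θ - μ)} = ENNReal.ofReal (2 * γ)

/-- C1b (arcs that partition the circle). Proof: by C1a, `∑ 2γ_i` = sum of the measures of the sets
`A_i = {θ ∈ (-π,π] | cos γ_i < cos (θ - μ_i)}` (measurable: open condition), which are pairwise disjoint outside the countable (null) set `N`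
and cover `(-π,π]` outside `N`; so the sum is `2π`. -/
def Stm_C1b : Prop := ∀ (ι : Type) (s : Finset ι) (γ μ : ι → ℝ) (N : Set ℝ), N.Countable →
  (∀ i ∈ s, 0 ≤ γ i ∧ γ i ≤ Real.pi) →
  (∀ θ ∈ Ioc (-Real.pi) Real.pi, θ ∉ N → ∃ i ∈ s, Real.cos (γ i) < Real.cos (θ - μ i)) →
  (∀ θ ∈ Ioc (-Real.pi) Real.pi, θ ∉ N → ∀ i ∈ s, ∀ j ∈ s, Real.cos (γ i) < Real.cos (θ - μ i) →
    Real.cos (γ j) < Real.cos (θ - μ j) → i = j) →
  ∑ i ∈ s, γ i = Real.pi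

/-- C2a (coordinates in the plane orthogonal to `f`). Proof: `(ℝ ∙ f)ᗮ` has finrank 2; compose the orthogonal
projection with an isometry to `EuclideanSpace ℝ (Fin 2)` (`stdOrthonormalBasis`). -/
def Stm_C2a : Prop := ∀ f : E3, f ≠ 0 → ∃ φ : E3 →ₗ[ℝ] EuclideanSpace ℝ (Fin 2),
  (∀ y, inner ℝ y f = (0 : ℝ) → ‖φ y‖ = ‖y‖) ∧ φ f = 0 ∧ (∀ z, ∃ y, inner ℝ y f = (0 : ℝ) ∧ φ y = z)

/-- C2b (trigonometry). With `x = hx v`, `z = hx f`: `tl v = 2x/(1-x²)` (`tl_eq_hx`), `tl f/‖f‖ = 2z/(1+z²)` (`tl_div_norm`),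
`tan(θ - ω) = (z/x - xz)/(1+z²) = z(1-x²)/(x(1+z²)) = (tl f/‖f‖)/tl v`, and `θ - ω ∈ (0,π/2)` (`θ = arctan (z/x)`,
`ω = arctan (xz)`, `xz < z/x`), so `arctan(tl v/(tl f/‖f‖)) = π/2 - (θ - ω)` (`Real.arctan_inv_of_pos`). -/
def Stm_C2b : Prop := ∀ v f : E3, 1 < ‖v‖ → 1 < ‖f‖ →
  Real.arctan (tl v / (tl f / ‖f‖)) = ph (hx v) (hx f)

end Pool.Agent.Lib.MP_af06f6_co
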