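import Mathlib
import Pool.Agent.Lib.MP_af06f6_co.G.Stm2
import Pool.Agent.Lib.MP_af06f6_co.G.P.A1
import Pool.Agent.Lib.MP_af06f6_co.G.P.A2
import Pool.Agent.Lib.MP_af06f6_co.G.P.A3
import Pool.Agent.Lib.MP_af06f6_co.G.P.A4
import Pool.Agent.Lib.MP_af06f6_co.G.P.A5a
import Pool.Agent.Lib.MP_af06f6_co.G.P.A5b
import Pool.Agent.Lib.MP_af06f6_co.G.P.A5
import Pool.Agent.Lib.MP_af06f6_co.G.P.A6
import Pool.Agent.Lib.MP_af06f6_co.G.P.A7
import Pool.Agent.Lib.MP_af06f6_co.G.P.A8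
import Pool.Agent.Lib.MP_af06f6_co.G.P.A9
import Pool.Agent.Lib.MP_af06f6_co.G.P.A10a
import Pool.Agent.Lib.MP_af06f6_co.G.P.A10b
import Pool.Agent.Lib.MP_af06f6_co.G.P.A10c
import Pool.Agent.Lib.MP_af06f6_co.G.P.A10
import Pool.Agent.Lib.MP_af06f6_co.G.P.A11
import Pool.Agent.Lib.MP_af06f6_co.G.P.B1
import Pool.Agent.Lib.MP_af06f6_co.G.P.B2a
import Pool.Agent.Lib.MP_af06f6_co.G.P.B2
import Pool.Agent.Lib.MP_af06f6_co.G.P.B3
import Pool.Agent.Lib.MP_af06f6_co.G.P.B4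
import Pool.Agent.Lib.MP_af06f6_co.G.P.B5
import Pool.Agent.Lib.MP_af06f6_co.G.P.B6a
import Pool.Agent.Lib.MP_af06f6_co.G.P.B6b
import Pool.Agent.Lib.MP_af06f6_co.G.P.B6c
import Pool.Agent.Lib.MP_af06f6_co.G.P.B6
import Pool.Agent.Lib.MP_af06f6_co.G.P.B7a
import Pool.Agent.Lib.MP_af06f6_co.G.P.B7b
import Pool.Agent.Lib.MP_af06f6_co.G.P.B7c
import Pool.Agent.Lib.MP_af06f6_co.G.P.B7
import Pool.Agent.Lib.MP_af06f6_co.G.P.B8
import Pool.Agent.Lib.MP_af06f6_co.G.P.B9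
import Pool.Agent.Lib.MP_af06f6_co.G.P.B10
import Pool.Agent.Lib.MP_af06f6_co.G.P.B11
import Pool.Agent.Lib.MP_af06f6_co.G.P.C1a
import Pool.Agent.Lib.MP_af06f6_co.G.P.C1b
import Pool.Agent.Lib.MP_af06f6_co.G.P.C1
import Pool.Agent.Lib.MP_af06f6_co.G.P.C2a
import Pool.Agent.Lib.MP_af06f6_co.G.P.C2b
import Pool.Agent.Lib.MP_af06f6_co.G.P.C2
import Pool.Agent.Lib.MP_af06f6_co.G.P.C3
import Pool.Agent.Lib.MP_af06f6_co.G.P.C4
import Pool.Agent.Lib.MP_af06f6_co.G.P.C5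
import Pool.Agent.Lib.MP_af06f6_co.G.P.D1
import Pool.Agent.Lib.MP_af06f6_co.G.P.D2
import Pool.Agent.Lib.MP_af06f6_co.G.P.D3
import Pool.Agent.Lib.MP_af06f6_co.G.P.D4

/-!
MP_af06f6_co, geometry part: all pieces together.
-/

namespace Pool.Agent.Lib.MP_af06f6_co

theorem A1_holds : Stm_A1 := pf_A1

theorem A2_holds : Stm_A2 := pf_A2

theorem A3_holds : Stm_A3 := pf_A3

theorem A5a_holds : Stm_A5a := pf_A5a

theorem A6_holds : Stm_A6 := pf_A6

theorem A8_holds : Stm_A8 := pf_A8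

theorem A10a_holds : Stm_A10a := pf_A10a

theorem A10c_holds : Stm_A10c := pf_A10c

theorem B1_holds : Stm_B1 := pf_B1

theorem B2a_holds : Stm_B2a := pf_B2a

theorem B6b_holds : Stm_B6b := pf_B6b

theorem C1a_holds : Stm_C1a := pf_C1a

theorem C2a_holds : Stm_C2a := pf_C2a

theorem C2b_holds : Stm_C2b := pf_C2b

theorem C5_holds : Stm_C5 := pf_C5

theorem D1_holds : Stm_D1 := pf_D1

theorem D2_holds : Stm_D2 := pf_D2

theorem A4_holds : Stm_A4 := pf_A4 A2_holds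

theorem A5b_holds : Stm_A5b := pf_A5b A1_holds

theorem B2_holds : Stm_B2 := pf_B2 B2a_holds

theorem B3_holds : Stm_B3 := pf_B3 A1_holds A3_holds

theorem B6a_holds : Stm_B6a := pf_B6a A1_holds

theorem C1b_holds : Stm_C1b := pf_C1b C1a_holds

theorem D3_holds : Stm_D3 := pf_D3 D2_holds

theorem D4_holds : Stm_D4 := pf_D4 D2_holds

theorem A5_holds : Stm_A5 := pf_A5 A2_holds A3_holds A4_holds A5a_holds A5b_holds

theorem C1_holds : Stm_C1 := pf_C1 C1b_holds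

theorem A7_holds : Stm_A7 := pf_A7 A2_holds A5_holds A6_holds

theorem A9_holds : Stm_A9 := pf_A9 A2_holds A4_holds A5_holds A6_holds

theorem A10b_holds : Stm_A10b := pf_A10b A3_holds A4_holds A5_holds

theorem B4_holds : Stm_B4 := pf_B4 A1_holds A4_holds A5_holds A6_holds B3_holds

theorem B6c_holds : Stm_B6c := pf_B6c A3_holds A5_holds

theorem B7a_holds : Stm_B7a := pf_B7a A4_holds A5_holds

theorem B7c_holds : Stm_B7c := pf_B7c A5_holds

theorem A10_holds : Stm_A10 := pf_A10 A4_holds A10a_holds A10b_holds A10c_holds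

theorem B5_holds : Stm_B5 := pf_B5 B3_holds B4_holds

theorem B6_holds : Stm_B6 := pf_B6 B3_holds B6a_holds B6b_holds B6c_holds

theorem B7b_holds : Stm_B7b := pf_B7b A5_holds B7a_holds

theorem A11_holds : Stm_A11 := pf_A11 A4_holds A8_holds A9_holds A10_holds

theorem B7_holds : Stm_B7 := pf_B7 B7a_holds B7b_holds B7c_holds

theorem B8_holds : Stm_B8 := pf_B8 B7_holds

theorem C2_holds : Stm_C2 := pf_C2 A1_holds B7_holds C1_holds C2a_holds C2b_holds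

theorem B9_holds : Stm_B9 := pf_B9 B7_holds B8_holds

theorem C3_holds : Stm_C3 := pf_C3 C2_holds

theorem B10_holds : Stm_B10 := pf_B10 B7_holds B8_holds B9_holds

theorem C4_holds : Stm_C4 := pf_C4 A11_holds C2_holds C3_holds

theorem B11_holds : Stm_B11 := pf_B11 B1_holds B2_holds B5_holds B6_holds B10_holds

end Pool.Agent.Lib.MP_af06f6_co
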